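import Pool.Agent.TH884.Kz.Degree
import Pool.Agent.TH884.Kz.ExtRank

/-!
# The Golod-Shafarevich inequality for Koszul algebras of cohomological dimension two
-/

set_option autoImplicit false

namespace Pool.Agent.Y443.KZ

open Pool.Agent.TH884.Kz Matrix Polynomial

universe u

variable {k : Type u} [Field k] {Q : QuadData k}

theorem deg_of_mem_degOne {l : Q.Alg} (hl : l ∈ Q.degOne) : Q.deg l = C l * X := by
  induction hl using Submodule.span_induction with
  | mem x h => obtain ⟨i, rfl⟩ := h; exact Q.deg_gen i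
  | zero => rw [map_zero, map_zero, zero_mul]
  | add x y _ _ hx hy => rw [map_add, hx, hy, map_add, add_mul]
  | smul a x _ hx => rw [map_smul, hx, ← smul_mul_assoc, smul_C]

theorem deg_of_mem_pow (n : ℕ) {a : Q.Alg} (ha : a ∈ Q.degOne ^ n) : Q.deg a = C a * X ^ n := by
  induction n generalizing a with
  | zero =>
    rw [pow_zero] at ha
    obtain ⟨r, rfl⟩ := Submodule.mem_one.1 ha
    rw [AlgHom.commutes, pow_zero, mul_one, Polynomial.algebraMap_apply]
  | succ n ih =>
    rw [pow_succ] at ha
    induction ha using Submodule.mul_induction_on' with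
    | mem_mul_mem m hm l hl =>
      rw [map_mul, ih hm, deg_of_mem_degOne hl, map_mul, pow_succ]
      rw [mul_assoc, ← mul_assoc (X ^ n), X_pow_mul_C]
      simp only [mul_assoc]
    | add x _ y _ hx hy => rw [map_add, hx, hy, map_add, add_mul]

theorem coeff_mem (a : Q.Alg) : ∀ n, (Q.deg a).coeff n ∈ Q.degOne ^ n := by
  induction a using Q.alg_induction with
  | hr r =>
    intro n
    rw [AlgHom.commutes, Polynomial.algebraMap_apply, coeff_C]
    split_ifs with h
    · rw [h, pow_zero]
      exact Submodule.mem_one.2 ⟨r, rfl⟩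
    · exact Submodule.zero_mem _
  | hg i =>
    intro n
    rw [Q.deg_gen, coeff_C_mul, coeff_X]
    split_ifs with h
    · rw [← h, pow_one, mul_one]
      exact Q.gen_mem i
    · rw [mul_zero]
      exact Submodule.zero_mem _
  | hmul a b ha hb =>
    intro n
    rw [map_mul, coeff_mul]
    refine Submodule.sum_mem _ fun p hp => ?_
    rw [← Finset.HasAntidiagonal.mem_antidiagonal.1 hp, pow_add]
    exact Submodule.mul_mem_mul (ha _) (hb _)
  | hadd a b ha hb =>
    intro n
    rw [map_add, coeff_add]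
    exact Submodule.add_mem _ (ha n) (hb n)

theorem coeff_mul_lin (a : Q.Alg) {l : Q.Alg} (hl : l ∈ Q.degOne) (n : ℕ) :
    (Q.deg (a * l)).coeff (n + 1) = (Q.deg a).coeff n * l := by
  rw [map_mul, deg_of_mem_degOne hl, ← mul_assoc, coeff_mul_X, coeff_mul_C]

theorem coeff_self (n : ℕ) {a : Q.Alg} (ha : a ∈ Q.degOne ^ n) : (Q.deg a).coeff n = a := by
  rw [deg_of_mem_pow n ha, coeff_C_mul, coeff_X_pow, if_pos rfl, mul_one]

instance fin_pow (n : ℕ) : Module.Finite k ↥(Q.degOne ^ n) := by
  classical
  rw [Module.Finite.iff_fg]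
  refine Submodule.FG.pow ?_ n
  exact ⟨Finset.univ.image Q.gen, by rw [Finset.coe_image, Finset.coe_univ, Set.image_univ]; rfl⟩

/-- The Hilbert function. -/
noncomputable def hilb (Q : QuadData k) (n : ℕ) : ℕ := Module.finrank k ↥(Q.degOne ^ n)

theorem hilb_zero_pos : 0 < hilb Q 0 := by
  rw [hilb, Module.finrank_pos_iff]
  refine ⟨⟨⟨1, by rw [pow_zero]; exact Submodule.mem_one.2 ⟨1, map_one _⟩⟩, 0, fun h => ?_⟩⟩
  have h1 := congrArg (fun z => Q.aug (Subtype.val z)) h
  simp only [map_one, Submodule.coe_zero, map_zero] at h1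
  exact one_ne_zero h1

/-- The recursion of the Hilbert function. -/
theorem hilb_rec (res : LinearResolution Q) (h3 : Fintype.card (res.ι 3) = 0) (d : ℕ) :
    Fintype.card (res.ι 1) * hilb Q (d + 1) = hilb Q (d + 2) + Fintype.card (res.ι 2) * hilb Q d := by
  classical
  have hs : Subsingleton (res.ι 0) := Fintype.card_le_one_iff_subsingleton.1 res.card_zero.le
  obtain ⟨c⟩ : Nonempty (res.ι 0) := Fintype.card_pos_iff.1 (by rw [res.card_zero]; norm_num)
  -- the first map
  let Φ : (res.ι 1 → ↥(Q.degOne ^ (d + 1))) →ₗ[k] Q.Alg :=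
    { toFun := fun w => ∑ a, (w a : Q.Alg) * res.d 0 a c
      map_add' := fun v w => by
        simp only [Pi.add_apply, Submodule.coe_add, add_mul, Finset.sum_add_distrib]
      map_smul' := fun r v => by
        simp only [Pi.smul_apply, Submodule.coe_smul, smul_mul_assoc, Finset.smul_sum,
          RingHom.id_apply] }
  let Ψ : (res.ι 2 → ↥(Q.degOne ^ d)) →ₗ[k] (res.ι 1 → ↥(Q.degOne ^ (d + 1))) :=
    { toFun := fun u b => ⟨∑ a, (u a : Q.Alg) * res.d 1 a b, Submodule.sum_mem _ fun a _ => by
        rw [pow_succ]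
        exact Submodule.mul_mem_mul (u a).2 (res.linear 1 a b)⟩
      map_add' := fun v w => by
        funext b
        apply Subtype.ext
        simp only [Pi.add_apply, Submodule.coe_add, add_mul, Finset.sum_add_distrib]
      map_smul' := fun r v => by
        funext b
        apply Subtype.ext
        simp only [Pi.smul_apply, Submodule.coe_smul, smul_mul_assoc, Finset.smul_sum,
          RingHom.id_apply] }
  have hlin : ∀ i : Fin Q.m, ∃ w : res.ι 1 → k, Q.gen i =
      ∑ a, algebraMap k Q.Alg (w a) * res.d 0 a c := by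
    intro i
    obtain ⟨w, hw⟩ := (res.exact_zero (fun _ => Q.gen i)).1
      (fun _ => by rw [QuadData.aug, QuadData.lift_gen])
    have hw' : ∑ a, w a * res.d 0 a c = Q.gen i := congrFun hw c
    have h1 : ∀ a, ∃ r : k, algebraMap k Q.Alg r = (Q.deg (w a)).coeff 0 := fun a => by
      have := coeff_mem (w a) 0
      rw [pow_zero] at this
      exact Submodule.mem_one.1 this
    choose r hr using h1
    refine ⟨r, ?_⟩
    have h2 := congrArg (fun z => (Q.deg z).coeff 1) hw'
    simp only [map_sum, finsetSum_coeff] at h2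
    rw [coeff_self 1 (by rw [pow_one]; exact Q.gen_mem i)] at h2
    rw [← h2]
    refine Finset.sum_congr rfl fun a _ => ?_
    rw [hr]
    exact coeff_mul_lin (w a) (res.linear 0 a c) 0
  have hrange : LinearMap.range Φ = Q.degOne ^ (d + 2) := by
    apply le_antisymm
    · rintro _ ⟨w, rfl⟩
      refine Submodule.sum_mem _ fun a _ => ?_
      rw [pow_succ]
      exact Submodule.mul_mem_mul (w a).2 (res.linear 0 a c)
    · rw [pow_succ, Submodule.mul_le]
      intro m hm l hl
      induction hl using Submodule.span_induction with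
      | mem x h =>
        obtain ⟨i, rfl⟩ := h
        obtain ⟨w, hw⟩ := hlin i
        refine ⟨fun a => ⟨w a • m, Submodule.smul_mem _ _ hm⟩, ?_⟩
        change ∑ a, (w a • m) * res.d 0 a c = m * Q.gen i
        rw [hw, Finset.mul_sum]
        refine Finset.sum_congr rfl fun a _ => ?_
        rw [← mul_assoc, ← Algebra.commutes, ← Algebra.smul_def]
      | zero => rw [mul_zero]; exact Submodule.zero_mem _
      | add x y _ _ hx hy => rw [mul_add]; exact Submodule.add_mem _ hx hy
      | smul a x _ hx => rw [mul_smul_comm]; exact Submodule.smul_mem _ _ hx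
  have hker : LinearMap.range Ψ = LinearMap.ker Φ := by
    apply le_antisymm
    · rintro _ ⟨u, rfl⟩
      rw [LinearMap.mem_ker]
      have h := (res.exact 0 ((fun a => (u a : Q.Alg)) ᵥ* res.d 1)).2 ⟨_, rfl⟩
      exact congrFun h c
    · intro w hw
      rw [LinearMap.mem_ker] at hw
      have h1 : (fun a => (w a : Q.Alg)) ᵥ* res.d 0 = 0 := by
        funext c'
        obtain rfl := Subsingleton.elim c c'
        exact hw
      obtain ⟨u, hu⟩ := (res.exact 0 _).1 h1
      refine ⟨fun a => ⟨(Q.deg (u a)).coeff d, coeff_mem _ _⟩, funext fun b => Subtype.ext ?_⟩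
      change ∑ a, (Q.deg (u a)).coeff d * res.d 1 a b = (w b : Q.Alg)
      have h2 : ∑ a, u a * res.d 1 a b = (w b : Q.Alg) := congrFun hu b
      have h3 := congrArg (fun z => (Q.deg z).coeff (d + 1)) h2
      simp only [map_sum, finsetSum_coeff] at h3
      rw [coeff_self (d + 1) (w b).2] at h3
      rw [← h3]
      exact Finset.sum_congr rfl fun a _ => (coeff_mul_lin (u a) (res.linear 1 a b) d).symm
  have hinj : Function.Injective Ψ := by
    rw [← LinearMap.ker_eq_bot, LinearMap.ker_eq_bot']
    intro u hu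
    have he : IsEmpty (res.ι 3) := Fintype.card_eq_zero_iff.1 h3
    have h1 : (fun a => (u a : Q.Alg)) ᵥ* res.d 1 = 0 := by
      funext b
      exact congrArg Subtype.val (congrFun hu b)
    obtain ⟨t, ht⟩ := (res.exact 1 _).1 h1
    funext a
    apply Subtype.ext
    rw [← congrFun ht a]
    change ∑ i, t i * res.d 2 i a = 0
    exact Finset.sum_eq_zero fun i _ => he.elim i
  have e1 := LinearMap.finrank_range_add_finrank_ker Φ
  rw [← hker, LinearMap.finrank_range_of_inj hinj, hrange] at e1
  rw [Module.finrank_pi_fintype, Module.finrank_pi_fintype] at e1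
  simp only [Finset.sum_const, Finset.card_univ, smul_eq_mul] at e1
  rw [hilb, hilb, hilb]
  exact e1.symm

/-- The discriminant of a positive solution of a recursion of order two is nonnegative. -/
theorem disc (b c : ℕ) (h : ℕ → ℕ) (h0 : 0 < h 0)
    (hr : ∀ d, b * h (d + 1) = h (d + 2) + c * h d) : 4 * c ≤ b ^ 2 := by
  by_contra hcon
  push Not at hcon
  have hc : 0 < c := by
    rcases Nat.eq_zero_or_pos c with h1 | h1
    · rw [h1] at hcon
      omega
    · exact h1
  have hpos : ∀ d, 0 < h d := by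
    intro d
    induction d with
    | zero => exact h0
    | succ d ih =>
      rcases Nat.eq_zero_or_pos (h (d + 1)) with h1 | h1
      · have h2 := hr d
        rw [h1, mul_zero] at h2
        have h3 : 0 < c * h d := Nat.mul_pos hc ih
        omega
      · exact h1
  -- the ratios decrease
  let r : ℕ → ℝ := fun d => (h (d + 1) : ℝ) / h d
  have hrpos : ∀ d, 0 < r d := fun d =>
    div_pos (Nat.cast_pos.2 (hpos _)) (Nat.cast_pos.2 (hpos _))
  have hrec : ∀ d, r (d + 1) = b - c / r d := by
    intro d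
    have h1 : (h (d + 1) : ℝ) ≠ 0 := (Nat.cast_pos.2 (hpos _)).ne'
    have h2 : (h d : ℝ) ≠ 0 := (Nat.cast_pos.2 (hpos _)).ne'
    have h3 : (b : ℝ) * h (d + 1) = h (d + 2) + c * h d := by exact_mod_cast hr d
    change (h (d + 2) : ℝ) / h (d + 1) = b - c / ((h (d + 1) : ℝ) / h d)
    field_simp
    linarith
  have hgap : (0 : ℝ) < c - (b : ℝ) ^ 2 / 4 := by
    have : ((b ^ 2 : ℕ) : ℝ) < ((4 * c : ℕ) : ℝ) := by exact_mod_cast hcon
    push_cast at this
    linarith
  have hstep : ∀ d, r (d + 1) ≤ r d - (c - (b : ℝ) ^ 2 / 4) / r d := by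
    intro d
    have h1 := hrpos d
    rw [hrec d, ← sub_nonneg]
    have : r d - (c - (b : ℝ) ^ 2 / 4) / r d - (b - c / r d) = (r d - b / 2) ^ 2 / r d := by
      field_simp
      ring
    rw [this]
    positivity
  have hanti : ∀ d, r d ≤ r 0 := by
    intro d
    induction d with
    | zero => exact le_rfl
    | succ d ih =>
      have h1 := hstep d
      have h2 : 0 < (c - (b : ℝ) ^ 2 / 4) / r d := div_pos hgap (hrpos d)
      linarith
  have hlin : ∀ d : ℕ, r d ≤ r 0 - d * ((c - (b : ℝ) ^ 2 / 4) / r 0) := by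
    intro d
    induction d with
    | zero => simp
    | succ d ih =>
      have h1 := hstep d
      have h2 : (c - (b : ℝ) ^ 2 / 4) / r 0 ≤ (c - (b : ℝ) ^ 2 / 4) / r d :=
        div_le_div_of_nonneg_left hgap.le (hrpos d) (hanti d)
      push_cast
      linarith
  have hδ : 0 < (c - (b : ℝ) ^ 2 / 4) / r 0 := div_pos hgap (hrpos 0)
  obtain ⟨N, hN⟩ := exists_nat_gt (r 0 / ((c - (b : ℝ) ^ 2 / 4) / r 0))
  have h1 := hlin N
  have h2 := hrpos N
  rw [div_lt_iff₀ hδ] at hN
  linarith

theorem golod_shafarevich (hQ : Q.IsKoszul) (h3 : Q.betti 3 = 0) : 4 * Q.betti 2 ≤ Q.betti 1 ^ 2 := by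
  obtain ⟨res⟩ := hQ
  rw [betti_eq res] at h3
  rw [betti_eq res, betti_eq res]
  exact disc _ _ (hilb Q) hilb_zero_pos fun d => hilb_rec res h3 d

end Pool.Agent.Y443.KZ
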