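import Pool.Agent.TH884.Kz.Resolution

/-!
# Adding free generators which are killed by the old generators from the left

From a quadratic algebra `A` with generators `x_i` we pass to the quadratic algebra `A'` with the
additional generators `y_1, ..., y_s` and the additional relations `x_i y_j = 0`. As a right
`A`-module `A'` is free on the words in the letters `y_j`. This is the structure theory.
-/

set_option autoImplicit false

namespace Pool.Agent.Y443.KZ

open Pool.Agent.TH884.Kz Matrix

universe u

variable {k : Type u} [Field k]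

/-- The relations of the extended algebra. -/
def extR (Q : QuadData k) (s : ℕ) : Submodule k (Matrix (Fin (Q.m + s)) (Fin (Q.m + s)) k) where
  carrier := {c | c.submatrix (Fin.castAdd s) (Fin.castAdd s) ∈ Q.R ∧
    ∀ a b, c (Fin.natAdd Q.m a) b = 0}
  add_mem' := by
    rintro c d ⟨h1, h2⟩ ⟨h3, h4⟩
    refine ⟨?_, fun a b => ?_⟩
    · rw [Matrix.submatrix_add]; exact Q.R.add_mem h1 h3
    · rw [Matrix.add_apply, h2, h4, add_zero]
  zero_mem' := ⟨by rw [Matrix.submatrix_zero]; exact Q.R.zero_mem, fun a b => rfl⟩
  smul_mem' := by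
    rintro r c ⟨h1, h2⟩
    refine ⟨?_, fun a b => ?_⟩
    · rw [Matrix.submatrix_smul]; exact Q.R.smul_mem r h1
    · rw [Matrix.smul_apply, h2, smul_zero]

/-- The extended quadratic algebra: `s` more generators `y_j`, with `x_i y_j = 0`. -/
abbrev ext (Q : QuadData k) (s : ℕ) : QuadData k := ⟨Q.m + s, extR Q s⟩

section

variable (Q : QuadData k) (s : ℕ)

/-- The model of the extended algebra. -/
abbrev M : Type u := List (Fin s) →₀ Q.Alg

/-- The action of `x_i`. -/
noncomputable def X (i : Fin Q.m) : Module.End k (M Q s) :=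
  Finsupp.lsingle [] ∘ₗ LinearMap.mulLeft k (Q.gen i) ∘ₗ Finsupp.lapply []

/-- The action of `y_j`. -/
noncomputable def Y (j : Fin s) : Module.End k (M Q s) := Finsupp.lmapDomain Q.Alg k (List.cons j)

theorem X_apply (i : Fin Q.m) (m : M Q s) : X Q s i m = Finsupp.single [] (Q.gen i * m []) := rfl

theorem Y_single (j : Fin s) (w : List (Fin s)) (a : Q.Alg) :
    Y Q s j (Finsupp.single w a) = Finsupp.single (j :: w) a := by
  rw [Y, Finsupp.lmapDomain_apply, Finsupp.mapDomain_single]

theorem X_Y (i : Fin Q.m) (j : Fin s) : X Q s i * Y Q s j = 0 := by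
  refine LinearMap.ext fun m => ?_
  rw [Module.End.mul_apply, X_apply, Y, Finsupp.lmapDomain_apply,
    Finsupp.mapDomain_of_notMem_range, mul_zero, Finsupp.single_zero, LinearMap.zero_apply]
  rintro ⟨w, hw⟩
  exact List.cons_ne_nil _ _ hw

theorem X_X (i j : Fin Q.m) (m : M Q s) :
    (X Q s i * X Q s j) m = Finsupp.single [] (Q.gen i * Q.gen j * m []) := by
  rw [Module.End.mul_apply, X_apply, X_apply, Finsupp.single_eq_same, mul_assoc]

/-- The action of the generators of the extended algebra. -/
noncomputable def act : Fin (Q.m + s) → Module.End k (M Q s) :=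
  Fin.addCases (X Q s) (Y Q s)

theorem act_left (i : Fin Q.m) : act Q s (Fin.castAdd s i) = X Q s i := Fin.addCases_left _

theorem act_right (j : Fin s) : act Q s (Fin.natAdd Q.m j) = Y Q s j := Fin.addCases_right _

theorem sum_XX (c : Matrix (Fin Q.m) (Fin Q.m) k) (hc : c ∈ Q.R) :
    ∑ i, ∑ j, c i j • (X Q s i * X Q s j) = 0 := by
  refine LinearMap.ext fun m => ?_
  have h5 := Q.rel_eq_zero hc
  have h6 : (∑ i, ∑ j, c i j • (X Q s i * X Q s j)) m =
      Finsupp.single [] ((∑ i, ∑ j, c i j • (Q.gen i * Q.gen j)) * m []) := by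
    rw [LinearMap.sum_apply, Finset.sum_mul, Finsupp.single_finsetSum]
    refine Finset.sum_congr rfl fun i _ => ?_
    rw [LinearMap.sum_apply, Finset.sum_mul, Finsupp.single_finsetSum]
    refine Finset.sum_congr rfl fun j _ => ?_
    rw [LinearMap.smul_apply, X_X, Finsupp.smul_single, smul_mul_assoc]
  rw [h6, h5, zero_mul, Finsupp.single_zero, LinearMap.zero_apply]

theorem act_rel (c : Matrix (Fin (Q.m + s)) (Fin (Q.m + s)) k) (hc : c ∈ extR Q s) :
    ∑ i, ∑ j, c i j • (act Q s i * act Q s j) = 0 := by
  obtain ⟨h1, h2⟩ := hc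
  rw [← sum_XX Q s _ h1, Fin.sum_univ_add]
  have h3 : ∑ i : Fin s, ∑ j, c (Fin.natAdd Q.m i) j •
      (act Q s (Fin.natAdd Q.m i) * act Q s j) = 0 :=
    Finset.sum_eq_zero fun i _ => Finset.sum_eq_zero fun j _ => by rw [h2, zero_smul]
  rw [h3, add_zero]
  refine Finset.sum_congr rfl fun i _ => ?_
  rw [Fin.sum_univ_add]
  have h4 : ∑ j : Fin s, c (Fin.castAdd s i) (Fin.natAdd Q.m j) •
      (act Q s (Fin.castAdd s i) * act Q s (Fin.natAdd Q.m j)) = 0 :=
    Finset.sum_eq_zero fun j _ => by rw [act_left, act_right, X_Y, smul_zero]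
  rw [h4, add_zero]
  refine Finset.sum_congr rfl fun j _ => ?_
  rw [act_left, act_left, Matrix.submatrix_apply]

/-- The representation of the extended algebra on the model. -/
noncomputable def rep : (ext Q s).Alg →ₐ[k] Module.End k (M Q s) :=
  (ext Q s).lift (act Q s) (act_rel Q s)

/-- The old generators. -/
noncomputable def x (i : Fin Q.m) : (ext Q s).Alg := (ext Q s).gen (Fin.castAdd s i)

/-- The new generators. -/
noncomputable def y (j : Fin s) : (ext Q s).Alg := (ext Q s).gen (Fin.natAdd Q.m j)

theorem rep_x (i : Fin Q.m) : rep Q s (x Q s i) = X Q s i :=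
  ((ext Q s).lift_gen _ _ _).trans (act_left Q s i)

theorem rep_y (j : Fin s) : rep Q s (y Q s j) = Y Q s j :=
  ((ext Q s).lift_gen _ _ _).trans (act_right Q s j)

/-- The matrix unit which says that `x_i y_j = 0`. -/
def cxy (i : Fin Q.m) (j : Fin s) : Matrix (Fin (Q.m + s)) (Fin (Q.m + s)) k :=
  Matrix.of fun a b => if a = Fin.castAdd s i ∧ b = Fin.natAdd Q.m j then (1 : k) else 0

theorem cxy_mem (i : Fin Q.m) (j : Fin s) : cxy Q s i j ∈ extR Q s := by
  refine ⟨?_, fun a b => ?_⟩
  · convert Q.R.zero_mem using 1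
    ext a b
    rw [Matrix.submatrix_apply, Matrix.zero_apply, cxy, Matrix.of_apply]
    refine if_neg fun h => ?_
    have := congrArg Fin.val h.2
    simp only [Fin.val_castAdd, Fin.val_natAdd] at this
    have := b.2
    omega
  · rw [cxy, Matrix.of_apply]
    refine if_neg fun h => ?_
    have := congrArg Fin.val h.1
    simp only [Fin.val_castAdd, Fin.val_natAdd] at this
    have := i.2
    omega

theorem x_mul_y (i : Fin Q.m) (j : Fin s) : x Q s i * y Q s j = 0 := by
  have h := (ext Q s).rel_eq_zero (c := cxy Q s i j) (cxy_mem Q s i j)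
  rw [Finset.sum_eq_single (Fin.castAdd s i), Finset.sum_eq_single (Fin.natAdd Q.m j)] at h
  · rw [cxy, Matrix.of_apply, if_pos ⟨rfl, rfl⟩, one_smul] at h
    exact h
  · intro b _ hb
    rw [cxy, Matrix.of_apply, if_neg (fun h => hb h.2), zero_smul]
  · intro h; exact absurd (Finset.mem_univ _) h
  · intro a _ ha
    refine Finset.sum_eq_zero fun b _ => ?_
    rw [cxy, Matrix.of_apply, if_neg (fun h => ha h.1), zero_smul]
  · intro h; exact absurd (Finset.mem_univ _) h

/-- The old relations. -/
def cold (c : Matrix (Fin Q.m) (Fin Q.m) k) : Matrix (Fin (Q.m + s)) (Fin (Q.m + s)) k :=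
  Matrix.of fun a b => Fin.addCases (motive := fun _ => k)
    (fun i => Fin.addCases (motive := fun _ => k) (fun j => c i j) (fun _ => 0) b) (fun _ => 0) a

theorem cold_ll (c : Matrix (Fin Q.m) (Fin Q.m) k) (i j : Fin Q.m) :
    cold Q s c (Fin.castAdd s i) (Fin.castAdd s j) = c i j := by
  rw [cold, Matrix.of_apply, Fin.addCases_left, Fin.addCases_left]

theorem cold_lr (c : Matrix (Fin Q.m) (Fin Q.m) k) (i : Fin Q.m) (j : Fin s) :
    cold Q s c (Fin.castAdd s i) (Fin.natAdd Q.m j) = 0 := by
  rw [cold, Matrix.of_apply, Fin.addCases_left, Fin.addCases_right]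

theorem cold_r (c : Matrix (Fin Q.m) (Fin Q.m) k) (i : Fin s) (b : Fin (Q.m + s)) :
    cold Q s c (Fin.natAdd Q.m i) b = 0 := by
  rw [cold, Matrix.of_apply, Fin.addCases_right]

theorem x_rel (c : Matrix (Fin Q.m) (Fin Q.m) k) (hc : c ∈ Q.R) :
    ∑ i, ∑ j, c i j • (x Q s i * x Q s j) = 0 := by
  have hc' : cold Q s c ∈ extR Q s := by
    refine ⟨?_, fun a b => cold_r Q s c a b⟩
    convert hc using 1
    ext a b
    rw [Matrix.submatrix_apply, cold_ll]
  have h := (ext Q s).rel_eq_zero (c := cold Q s c) hc'
  rw [← h]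
  refine Eq.trans ?_ (Fin.sum_univ_add _).symm
  have h3 : ∑ a : Fin s, ∑ b : Fin (Q.m + s), cold Q s c (Fin.natAdd Q.m a) b •
        ((ext Q s).gen (Fin.natAdd Q.m a) * (ext Q s).gen b) = 0 :=
    Finset.sum_eq_zero fun a _ => Finset.sum_eq_zero fun b _ => by
      rw [cold_r, zero_smul]
  refine Eq.trans ?_ (congrArg (fun z => _ + z) h3).symm
  rw [add_zero]
  refine Finset.sum_congr rfl fun i _ => ?_
  refine Eq.trans ?_ (Fin.sum_univ_add _).symm
  have h4 : ∑ b : Fin s, cold Q s c (Fin.castAdd s i) (Fin.natAdd Q.m b) •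
        ((ext Q s).gen (Fin.castAdd s i) * (ext Q s).gen (Fin.natAdd Q.m b)) = 0 :=
    Finset.sum_eq_zero fun b _ => by rw [cold_lr, zero_smul]
  refine Eq.trans ?_ (congrArg (fun z => _ + z) h4).symm
  rw [add_zero]
  refine Finset.sum_congr rfl fun j _ => ?_
  rw [cold_ll]
  rfl

/-- The embedding of the old algebra. -/
noncomputable def emb : Q.Alg →ₐ[k] (ext Q s).Alg := Q.lift (x Q s) (x_rel Q s)

theorem emb_gen (i : Fin Q.m) : emb Q s (Q.gen i) = x Q s i := Q.lift_gen _ _ _

/-- Words in the new generators. -/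
noncomputable def yw : List (Fin s) → (ext Q s).Alg
  | [] => 1
  | j :: w => y Q s j * yw w

/-- The map from the model to the algebra. -/
noncomputable def phi : M Q s →ₗ[k] (ext Q s).Alg :=
  Finsupp.lsum k (fun w => LinearMap.mulLeft k (yw Q s w) ∘ₗ (emb Q s).toLinearMap)

theorem phi_single (w : List (Fin s)) (a : Q.Alg) :
    phi Q s (Finsupp.single w a) = yw Q s w * emb Q s a := by
  rw [phi, Finsupp.lsum_single]
  rfl

theorem phi_rep (a : (ext Q s).Alg) (m : M Q s) : phi Q s (rep Q s a m) = a * phi Q s m := by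
  induction a using (ext Q s).alg_induction generalizing m with
  | hr r =>
    rw [AlgHom.commutes, Module.algebraMap_end_apply, map_smul, Algebra.smul_def]
  | hmul a b ha hb => rw [map_mul, Module.End.mul_apply, ha, hb, mul_assoc]
  | hadd a b ha hb => rw [map_add, LinearMap.add_apply, map_add, ha, hb, add_mul]
  | hg i =>
    induction i using Fin.addCases with
    | left i =>
      change phi Q s (rep Q s (x Q s i) m) = x Q s i * phi Q s m
      rw [rep_x]
      induction m using Finsupp.induction_linear with
      | zero => rw [map_zero, map_zero, mul_zero]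
      | add f g hf hg => rw [map_add, map_add, map_add, mul_add, hf, hg]
      | single w a =>
        rw [X_apply, phi_single, phi_single]
        cases w with
        | nil =>
          rw [Finsupp.single_eq_same, map_mul, emb_gen]
          simp only [yw, one_mul]
        | cons j w =>
          rw [Finsupp.single_eq_of_ne (List.cons_ne_nil _ _).symm, mul_zero, map_zero, mul_zero]
          simp only [yw]
          rw [← mul_assoc, ← mul_assoc, x_mul_y, zero_mul, zero_mul]
    | right j =>
      change phi Q s (rep Q s (y Q s j) m) = y Q s j * phi Q s m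
      rw [rep_y]
      induction m using Finsupp.induction_linear with
      | zero => rw [map_zero, map_zero, mul_zero]
      | add f g hf hg => rw [map_add, map_add, map_add, mul_add, hf, hg]
      | single w a =>
        rw [Y_single, phi_single, phi_single, ← mul_assoc]
        rfl

/-- The coordinates of an element of the algebra. -/
noncomputable def psi : (ext Q s).Alg →ₗ[k] M Q s where
  toFun a := rep Q s a (Finsupp.single [] 1)
  map_add' a b := by rw [map_add, LinearMap.add_apply]
  map_smul' r a := by rw [map_smul, LinearMap.smul_apply, RingHom.id_apply]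

theorem phi_psi (a : (ext Q s).Alg) : phi Q s (psi Q s a) = a := by
  change phi Q s (rep Q s a (Finsupp.single [] 1)) = a
  rw [phi_rep, phi_single, map_one, mul_one]
  exact mul_one a

theorem rep_emb (a b : Q.Alg) :
    rep Q s (emb Q s a) (Finsupp.single [] b) = Finsupp.single [] (a * b) := by
  induction a using Q.alg_induction generalizing b with
  | hr r =>
    rw [AlgHom.commutes, AlgHom.commutes, Module.algebraMap_end_apply, Finsupp.smul_single,
      Algebra.smul_def]
  | hg i => rw [emb_gen, rep_x, X_apply, Finsupp.single_eq_same]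
  | hmul a c ha hc => rw [map_mul, map_mul, Module.End.mul_apply, hc, ha, mul_assoc]
  | hadd a c ha hc =>
    rw [map_add, map_add, LinearMap.add_apply, ha, hc, add_mul, Finsupp.single_add]

theorem rep_yw (w : List (Fin s)) (a : Q.Alg) :
    rep Q s (yw Q s w) (Finsupp.single [] a) = Finsupp.single w a := by
  induction w with
  | nil => rw [yw, map_one, Module.End.one_apply]
  | cons j w ih => rw [yw, map_mul, Module.End.mul_apply, ih, rep_y, Y_single]

theorem psi_phi (m : M Q s) : psi Q s (phi Q s m) = m := by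
  induction m using Finsupp.induction_linear with
  | zero => rw [map_zero, map_zero]
  | add f g hf hg => rw [map_add, map_add, hf, hg]
  | single w a =>
    rw [phi_single]
    change rep Q s (yw Q s w * emb Q s a) (Finsupp.single [] 1) = _
    rw [map_mul, Module.End.mul_apply, rep_emb, mul_one, rep_yw]

theorem psi_inj {a b : (ext Q s).Alg} (h : psi Q s a = psi Q s b) : a = b := by
  rw [← phi_psi Q s a, ← phi_psi Q s b, h]

/-- Right multiplication on the model. -/
noncomputable def rmul (a : Q.Alg) : M Q s →ₗ[k] M Q s :=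
  Finsupp.mapRange.linearMap (LinearMap.mulRight k a)

theorem rmul_apply (a : Q.Alg) (m : M Q s) (w : List (Fin s)) : rmul Q s a m w = m w * a := rfl

theorem rmul_single (a b : Q.Alg) (w : List (Fin s)) :
    rmul Q s a (Finsupp.single w b) = Finsupp.single w (b * a) := by
  rw [rmul, Finsupp.mapRange.linearMap_apply, Finsupp.mapRange_single]
  rfl

theorem phi_rmul (a : Q.Alg) (m : M Q s) : phi Q s (rmul Q s a m) = phi Q s m * emb Q s a := by
  induction m using Finsupp.induction_linear with
  | zero => rw [map_zero, map_zero, zero_mul]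
  | add f g hf hg => rw [map_add, map_add, map_add, add_mul, hf, hg]
  | single w b => rw [rmul_single, phi_single, phi_single, map_mul, mul_assoc]

theorem psi_mul_emb (a : (ext Q s).Alg) (b : Q.Alg) :
    psi Q s (a * emb Q s b) = rmul Q s b (psi Q s a) := by
  rw [← psi_phi Q s (rmul Q s b (psi Q s a)), phi_rmul, phi_psi]

theorem psi_mul_emb_apply (a : (ext Q s).Alg) (b : Q.Alg) (w : List (Fin s)) :
    psi Q s (a * emb Q s b) w = psi Q s a w * b := by
  rw [psi_mul_emb, rmul_apply]

theorem emb_mul_y (a : Q.Alg) (j : Fin s) : emb Q s a * y Q s j = Q.aug a • y Q s j := by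
  induction a using Q.alg_induction with
  | hr r =>
    rw [AlgHom.commutes, AlgHom.commutes, ← Algebra.smul_def]
    rfl
  | hg i => rw [emb_gen, x_mul_y, QuadData.aug, QuadData.lift_gen, zero_smul]
  | hmul a b ha hb => rw [map_mul, mul_assoc, hb, mul_smul_comm, ha, smul_smul, map_mul, mul_comm]
  | hadd a b ha hb => rw [map_add, add_mul, ha, hb, ← add_smul, map_add]

/-- Right multiplication by `y_j` on the model. -/
noncomputable def T (j : Fin s) : M Q s →ₗ[k] M Q s :=
  Finsupp.lsum k (fun w => Finsupp.lsingle (w ++ [j]) ∘ₗ Algebra.linearMap k Q.Alg ∘ₗ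
    Q.aug.toLinearMap)

theorem T_single (j : Fin s) (w : List (Fin s)) (a : Q.Alg) :
    T Q s j (Finsupp.single w a) = Finsupp.single (w ++ [j]) (algebraMap k Q.Alg (Q.aug a)) := by
  rw [T, Finsupp.lsum_single]
  rfl

theorem yw_append (w : List (Fin s)) (j : Fin s) : yw Q s (w ++ [j]) = yw Q s w * y Q s j := by
  induction w with
  | nil => simp [yw]
  | cons i w ih => rw [List.cons_append, yw, ih, yw, mul_assoc]

theorem phi_T (j : Fin s) (m : M Q s) : phi Q s (T Q s j m) = phi Q s m * y Q s j := by
  induction m using Finsupp.induction_linear with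
  | zero => rw [map_zero, map_zero, zero_mul]
  | add f g hf hg => rw [map_add, map_add, map_add, add_mul, hf, hg]
  | single w b =>
    rw [T_single, phi_single, phi_single, mul_assoc, emb_mul_y, yw_append, AlgHom.commutes,
      mul_assoc, ← Algebra.commutes, ← Algebra.smul_def]

theorem psi_mul_y (a : (ext Q s).Alg) (j : Fin s) : psi Q s (a * y Q s j) = T Q s j (psi Q s a) := by
  rw [← psi_phi Q s (T Q s j (psi Q s a)), phi_T, phi_psi]

theorem T_apply (i j : Fin s) (m : M Q s) (w : List (Fin s)) :
    T Q s i m (w ++ [j]) = if i = j then algebraMap k Q.Alg (Q.aug (m w)) else 0 := by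
  induction m using Finsupp.induction_linear with
  | zero =>
    rw [map_zero, Finsupp.zero_apply, Finsupp.zero_apply, map_zero, map_zero]
    split_ifs <;> rfl
  | add f g hf hg =>
    rw [map_add, Finsupp.add_apply, hf, hg, Finsupp.add_apply, map_add, map_add]
    split_ifs
    · rfl
    · exact add_zero 0
  | single v b =>
    rw [T_single]
    by_cases h : v = w ∧ i = j
    · obtain ⟨rfl, rfl⟩ := h
      rw [Finsupp.single_eq_same, Finsupp.single_eq_same, if_pos rfl]
    · rw [Finsupp.single_eq_of_ne]
      · by_cases hij : i = j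
        · rw [if_pos hij, Finsupp.single_eq_of_ne, map_zero, map_zero]
          exact fun e => h ⟨e.symm, hij⟩
        · rw [if_neg hij]
      · intro e
        obtain ⟨e1, e2⟩ := List.append_inj' e rfl
        exact h ⟨e1.symm, (List.singleton_inj.1 e2).symm⟩

end

end Pool.Agent.Y443.KZ
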