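import Pool.Agent.Y443.KZ.Res

/-!
# A family of Koszul algebras violating Weigel's inequality in every dimension at least three
-/

set_option autoImplicit false

namespace Pool.Agent.Y443.KZ

open Pool.Agent.TH884.Kz

universe u

variable (k : Type u) [Field k]

/-- The family: the example of dimension three, extended `r` times by two generators. -/
noncomputable def fam : ℕ → QuadData k
  | 0 => (Example.data k).quad
  | r + 1 => ext (fam r) 2

theorem fam_koszul (r : ℕ) : (fam k r).IsKoszul := by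
  induction r with
  | zero => exact ⟨Example.res k⟩
  | succ r ih => exact ext_koszul ih 2

theorem fam_zero_betti :
    (fam k 0).betti 0 = 1 ∧ (fam k 0).betti 1 = 7 ∧ (fam k 0).betti 2 = 17 ∧
      (fam k 0).betti 3 = 16 ∧ ∀ n, (fam k 0).betti (n + 4) = 0 :=
  ⟨(betti_eq (Example.res k) 0).trans (Example.res k).card_zero,
    (betti_eq (Example.res k) 1).trans (Example.card_one k),
    (betti_eq (Example.res k) 2).trans (Example.card_two k),
    (betti_eq (Example.res k) 3).trans (Example.card_three k),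
    fun n => (betti_eq (Example.res k) (n + 4)).trans (Example.card_add_four k n)⟩

theorem fam_betti (r : ℕ) :
    (fam k r).betti 0 = 1 ∧ (fam k r).betti 1 = 2 * r + 7 ∧
      (fam k r).betti 2 = 2 * r ^ 2 + 12 * r + 17 ∧
      (fam k r).betti (r + 3) = 2 ^ r * 16 ∧ ∀ n, (fam k r).betti (r + n + 4) = 0 := by
  induction r with
  | zero =>
    obtain ⟨h0, h1, h2, h3, h4⟩ := fam_zero_betti k
    refine ⟨h0, by rw [h1], by rw [h2]; norm_num, by rw [h3]; norm_num, fun n => ?_⟩
    rw [zero_add]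
    exact h4 n
  | succ r ih =>
    obtain ⟨h0, h1, h2, h3, h4⟩ := ih
    have hk := fam_koszul k r
    refine ⟨betti_zero (fam_koszul k (r + 1)), ?_, ?_, ?_, fun n => ?_⟩
    · change (ext (fam k r) 2).betti (0 + 1) = _
      rw [ext_betti hk, h0, h1]
      ring
    · change (ext (fam k r) 2).betti (1 + 1) = _
      rw [ext_betti hk, h1, h2]
      ring
    · change (ext (fam k r) 2).betti ((r + 3) + 1) = _
      rw [ext_betti hk, h3]
      have := h4 0
      rw [show r + 3 + 1 = r + 0 + 4 by ring, this]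
      ring
    · rw [show r + 1 + n + 4 = (r + n + 4) + 1 by ring]
      change (ext (fam k r) 2).betti ((r + n + 4) + 1) = _
      rw [ext_betti hk, h4, show r + n + 4 + 1 = r + (n + 1) + 4 by ring, h4]

theorem exists_family (n : ℕ) (hn : 3 ≤ n) :
    ∃ Q : QuadData k, Q.IsKoszul ∧ IsGreatest {i : ℕ | Q.betti i ≠ 0} n ∧
      Q.betti 1 = 2 * n + 1 ∧ Q.betti 2 = 2 * n ^ 2 - 1 ∧
      (n - 1) * Q.betti 1 ^ 2 + (n + 1) = 2 * n * Q.betti 2 := by
  obtain ⟨r, rfl⟩ : ∃ r, n = r + 3 := ⟨n - 3, by omega⟩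
  obtain ⟨h0, h1, h2, h3, h4⟩ := fam_betti k r
  refine ⟨fam k r, fam_koszul k r, ⟨?_, ?_⟩, ?_, ?_, ?_⟩
  · change (fam k r).betti (r + 3) ≠ 0
    rw [h3]
    positivity
  · intro i hi
    by_contra h
    obtain ⟨m, rfl⟩ : ∃ m, i = r + m + 4 := ⟨i - r - 4, by omega⟩
    exact hi (h4 m)
  · rw [h1]; ring
  · rw [h2]
    have : 2 * (r + 3) ^ 2 = 2 * r ^ 2 + 12 * r + 17 + 1 := by ring
    rw [this, Nat.add_sub_cancel]
  · rw [h1, h2, show r + 3 - 1 = r + 2 by omega]
    ring

end Pool.Agent.Y443.KZ
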