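import Pool.Agent.Y443.KZ.Ext

/-!
# The extended algebra is Koszul
-/

set_option autoImplicit false

namespace Pool.Agent.Y443.KZ

open Pool.Agent.TH884.Kz Matrix

universe u

variable {k : Type u} [Field k] (Q : QuadData k) (s : ℕ)

theorem vecMul_map_apply {α β : Type} [Fintype α] (E : Matrix α β Q.Alg)
    (v : α → (ext Q s).Alg) (b : β) (w : List (Fin s)) :
    psi Q s ((v ᵥ* E.map (emb Q s)) b) w = ((fun a => psi Q s (v a) w) ᵥ* E) b := by
  change psi Q s (∑ a, v a * emb Q s (E a b)) w = ∑ a, psi Q s (v a) w * E a b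
  rw [map_sum, Finsupp.finsetSum_apply]
  exact Finset.sum_congr rfl fun a _ => psi_mul_emb_apply Q s _ _ _

/-- Exactness is preserved by the extension. -/
theorem lift_exact {α β : Type} [Fintype α] [Fintype β] (E : Matrix α β Q.Alg)
    (P : (β → Q.Alg) → Prop) (hP : ∀ v, P v ↔ ∃ w, w ᵥ* E = v) (v : β → (ext Q s).Alg) :
    (∀ w, P (fun b => psi Q s (v b) w)) ↔ ∃ u, u ᵥ* E.map (emb Q s) = v := by
  classical
  constructor
  · intro h
    choose u hu using fun w => (hP _).1 (h w)
    let S : Finset (List (Fin s)) := Finset.univ.biUnion fun b => (psi Q s (v b)).support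
    let n : α → M Q s := fun a => Finsupp.onFinset S (fun w => if w ∈ S then u w a else 0) (by
      intro w hw
      by_contra hS
      exact hw (if_neg hS))
    refine ⟨fun a => phi Q s (n a), funext fun b => psi_inj Q s ?_⟩
    ext w
    rw [vecMul_map_apply]
    have e : (fun a => psi Q s (phi Q s (n a)) w) = fun a => if w ∈ S then u w a else 0 := by
      funext a
      rw [psi_phi]
      rfl
    rw [e]
    by_cases hw : w ∈ S
    · simp only [if_pos hw]
      exact congrFun (hu w) b
    · simp only [if_neg hw]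
      have h1 : psi Q s (v b) w = 0 := by
        by_contra h2
        exact hw (Finset.mem_biUnion.2 ⟨b, Finset.mem_univ _, Finsupp.mem_support_iff.2 h2⟩)
      rw [h1]
      change ∑ a, (0 : Q.Alg) * E a b = 0
      simp
  · rintro ⟨u, rfl⟩ w
    refine (hP _).2 ⟨fun a => psi Q s (u a) w, ?_⟩
    funext b
    rw [vecMul_map_apply]

theorem vecMul_map_eq_zero {α β : Type} [Fintype α] (D : Matrix α β Q.Alg)
    (v : α → (ext Q s).Alg) :
    v ᵥ* D.map (emb Q s) = 0 ↔ ∀ w, (fun a => psi Q s (v a) w) ᵥ* D = 0 := by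
  constructor
  · intro h w
    funext b
    rw [← vecMul_map_apply, h]
    change psi Q s 0 w = 0
    rw [map_zero, Finsupp.zero_apply]
  · intro h
    funext b
    apply psi_inj Q s
    ext w
    rw [vecMul_map_apply, h w]
    change 0 = psi Q s 0 w
    rw [map_zero, Finsupp.zero_apply]

theorem lift_exact' {α β γ : Type} [Fintype α] [Fintype β] (E : Matrix α β Q.Alg)
    (D : Matrix β γ Q.Alg) (h : ∀ v, v ᵥ* D = 0 ↔ ∃ w, w ᵥ* E = v) (v : β → (ext Q s).Alg) :
    v ᵥ* D.map (emb Q s) = 0 ↔ ∃ u, u ᵥ* E.map (emb Q s) = v := by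
  rw [vecMul_map_eq_zero]
  exact lift_exact Q s E (fun v => v ᵥ* D = 0) h v

variable {Q}

/-- The index sets of the new resolution. -/
def idx (res : LinearResolution Q) (s : ℕ) : ℕ → Type
  | 0 => res.ι 0
  | n + 1 => res.ι (n + 1) ⊕ (Fin s × res.ι n)

/-- The index sets are finite. -/
@[instance_reducible] noncomputable def idxFin (res : LinearResolution Q) (s : ℕ) :
    ∀ n, Fintype (idx res s n)
  | 0 => inferInstanceAs (Fintype (res.ι 0))
  | n + 1 => inferInstanceAs (Fintype (res.ι (n + 1) ⊕ (Fin s × res.ι n)))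

/-- The first differential. -/
noncomputable def d0 (res : LinearResolution Q) (s : ℕ) :
    Matrix (res.ι 1 ⊕ (Fin s × res.ι 0)) (res.ι 0) (ext Q s).Alg :=
  Matrix.of fun a b => match a with
    | Sum.inl a => emb Q s (res.d 0 a b)
    | Sum.inr p => y Q s p.1

/-- The other differentials. -/
noncomputable def d1 (res : LinearResolution Q) (s n : ℕ) :
    Matrix (res.ι (n + 2) ⊕ (Fin s × res.ι (n + 1))) (res.ι (n + 1) ⊕ (Fin s × res.ι n))
      (ext Q s).Alg :=
  Matrix.of fun a b => match a, b with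
    | Sum.inl a, Sum.inl b => emb Q s (res.d (n + 1) a b)
    | Sum.inr p, Sum.inr q => if p.1 = q.1 then emb Q s (res.d n p.2 q.2) else 0
    | _, _ => 0

theorem d0_apply (res : LinearResolution Q) (v : res.ι 1 ⊕ (Fin s × res.ι 0) → (ext Q s).Alg)
    (c : res.ι 0) :
    (v ᵥ* d0 res s) c = ((fun a => v (Sum.inl a)) ᵥ* (res.d 0).map (emb Q s)) c +
      ∑ j : Fin s, v (Sum.inr (j, c)) * y Q s j := by
  have hs : Subsingleton (res.ι 0) := Fintype.card_le_one_iff_subsingleton.1 res.card_zero.le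
  change ∑ a, v a * d0 res s a c = _
  rw [Fintype.sum_sum_type, Fintype.sum_prod_type]
  refine congrArg₂ _ rfl (Finset.sum_congr rfl fun j _ => ?_)
  rw [Fintype.sum_subsingleton _ c]
  rfl

theorem d1_inl (res : LinearResolution Q) (n : ℕ)
    (v : res.ι (n + 2) ⊕ (Fin s × res.ι (n + 1)) → (ext Q s).Alg) (b : res.ι (n + 1)) :
    (v ᵥ* d1 res s n) (Sum.inl b) =
      ((fun a => v (Sum.inl a)) ᵥ* (res.d (n + 1)).map (emb Q s)) b := by
  change ∑ a, v a * d1 res s n a (Sum.inl b) = _
  rw [Fintype.sum_sum_type]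
  have h : ∑ p : Fin s × res.ι (n + 1), v (Sum.inr p) * d1 res s n (Sum.inr p) (Sum.inl b) = 0 :=
    Finset.sum_eq_zero fun p _ => mul_zero _
  rw [h, add_zero]
  rfl

theorem d1_inr (res : LinearResolution Q) (n : ℕ)
    (v : res.ι (n + 2) ⊕ (Fin s × res.ι (n + 1)) → (ext Q s).Alg) (j : Fin s) (b : res.ι n) :
    (v ᵥ* d1 res s n) (Sum.inr (j, b)) =
      ((fun a => v (Sum.inr (j, a))) ᵥ* (res.d n).map (emb Q s)) b := by
  change ∑ a, v a * d1 res s n a (Sum.inr (j, b)) = _
  rw [Fintype.sum_sum_type]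
  have h : ∑ p : res.ι (n + 2), v (Sum.inl p) * d1 res s n (Sum.inl p) (Sum.inr (j, b)) = 0 :=
    Finset.sum_eq_zero fun p _ => mul_zero _
  rw [h, zero_add, Fintype.sum_prod_type, Finset.sum_eq_single j]
  · refine Finset.sum_congr rfl fun a _ => ?_
    change v (Sum.inr (j, a)) * (if j = j then _ else _) = _
    rw [if_pos rfl]
    rfl
  · intro i _ hi
    refine Finset.sum_eq_zero fun a _ => ?_
    change v (Sum.inr (i, a)) * (if i = j then _ else _) = _
    rw [if_neg hi, mul_zero]
  · intro h; exact absurd (Finset.mem_univ _) h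

theorem d1_eq_zero (res : LinearResolution Q) (n : ℕ)
    (v : res.ι (n + 2) ⊕ (Fin s × res.ι (n + 1)) → (ext Q s).Alg) :
    v ᵥ* d1 res s n = 0 ↔ (fun a => v (Sum.inl a)) ᵥ* (res.d (n + 1)).map (emb Q s) = 0 ∧
      ∀ j, (fun a => v (Sum.inr (j, a))) ᵥ* (res.d n).map (emb Q s) = 0 := by
  constructor
  · intro h
    refine ⟨funext fun b => ?_, fun j => funext fun b => ?_⟩
    · rw [← d1_inl, h]; rfl
    · rw [← d1_inr, h]; rfl
  · rintro ⟨h1, h2⟩
    funext b
    rcases b with b | ⟨j, b⟩
    · rw [d1_inl, h1]; rfl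
    · rw [d1_inr, h2]; rfl

theorem exists_d1 (res : LinearResolution Q) (n : ℕ)
    (v : res.ι (n + 1) ⊕ (Fin s × res.ι n) → (ext Q s).Alg) :
    (∃ w, w ᵥ* d1 res s n = v) ↔
      (∃ w, w ᵥ* (res.d (n + 1)).map (emb Q s) = fun a => v (Sum.inl a)) ∧
      ∀ j, ∃ w, w ᵥ* (res.d n).map (emb Q s) = fun a => v (Sum.inr (j, a)) := by
  constructor
  · rintro ⟨w, rfl⟩
    refine ⟨⟨fun a => w (Sum.inl a), funext fun b => (d1_inl s res n w b).symm⟩, fun j =>
      ⟨fun a => w (Sum.inr (j, a)), funext fun b => (d1_inr s res n w j b).symm⟩⟩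
  · rintro ⟨⟨w, hw⟩, h2⟩
    choose u hu using h2
    refine ⟨Sum.elim w (fun p => u p.1 p.2), funext fun b => ?_⟩
    rcases b with b | ⟨j, b⟩
    · rw [d1_inl]
      exact congrFun hw b
    · rw [d1_inr]
      exact congrFun (hu j) b

theorem aug_emb (a : Q.Alg) : (ext Q s).aug (emb Q s a) = Q.aug a := by
  induction a using Q.alg_induction with
  | hr r => rw [AlgHom.commutes, AlgHom.commutes, AlgHom.commutes]
  | hg i =>
    rw [emb_gen, QuadData.aug, QuadData.aug, QuadData.lift_gen]
    exact (ext Q s).lift_gen _ _ _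
  | hmul a b ha hb => rw [map_mul, map_mul, map_mul, ha, hb]
  | hadd a b ha hb => rw [map_add, map_add, map_add, ha, hb]

theorem aug_y (j : Fin s) : (ext Q s).aug (y Q s j) = 0 := (ext Q s).lift_gen _ _ _

theorem emb_mem {a : Q.Alg} (ha : a ∈ Q.degOne) : emb Q s a ∈ (ext Q s).degOne := by
  induction ha using Submodule.span_induction with
  | mem x h =>
    obtain ⟨i, rfl⟩ := h
    rw [emb_gen]
    exact (ext Q s).gen_mem _
  | zero => rw [map_zero]; exact Submodule.zero_mem _
  | add x y _ _ hx hy => rw [map_add]; exact Submodule.add_mem _ hx hy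
  | smul a x _ hx => rw [map_smul]; exact Submodule.smul_mem _ _ hx

theorem exact_first (res : LinearResolution Q) (v : res.ι 0 → (ext Q s).Alg) :
    (∀ a, (ext Q s).aug (v a) = 0) ↔ ∃ w, w ᵥ* d0 res s = v := by
  have hs : Subsingleton (res.ι 0) := Fintype.card_le_one_iff_subsingleton.1 res.card_zero.le
  constructor
  · intro h
    obtain ⟨c⟩ : Nonempty (res.ι 0) := Fintype.card_pos_iff.1 (by rw [res.card_zero]; norm_num)
    obtain ⟨b, hb⟩ := exists_sum_gen (ext Q s) (v c) (h c)
    have h1 : ∀ i : Fin Q.m, ∃ w : res.ι 1 → Q.Alg, w ᵥ* res.d 0 = fun _ => Q.gen i := fun i =>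
      (res.exact_zero _).1 fun _ => by rw [QuadData.aug, QuadData.lift_gen]
    choose w hw using h1
    refine ⟨Sum.elim (fun a => ∑ i, b (Fin.castAdd s i) * emb Q s (w i a))
      (fun p => b (Fin.natAdd Q.m p.1)), funext fun c' => ?_⟩
    obtain rfl := Subsingleton.elim c c'
    rw [d0_apply, hb]
    refine Eq.trans ?_ (Fin.sum_univ_add (fun j => b j * (ext Q s).gen j)).symm
    refine congrArg₂ _ ?_ rfl
    change ∑ a, (∑ i, b (Fin.castAdd s i) * emb Q s (w i a)) * emb Q s (res.d 0 a c) = _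
    simp only [Finset.sum_mul]
    rw [Finset.sum_comm]
    refine Finset.sum_congr rfl fun i _ => ?_
    have h2 := congrFun (hw i) c
    change ∑ a, w i a * res.d 0 a c = Q.gen i at h2
    change _ = b (Fin.castAdd s i) * x Q s i
    rw [← emb_gen, ← h2, map_sum, Finset.mul_sum]
    refine Finset.sum_congr rfl fun a _ => ?_
    rw [map_mul, mul_assoc]
  · rintro ⟨w, rfl⟩ c
    rw [d0_apply, map_add]
    have h1 : (ext Q s).aug (((fun a => w (Sum.inl a)) ᵥ* (res.d 0).map (emb Q s)) c) = 0 := by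
      change (ext Q s).aug (∑ a, w (Sum.inl a) * emb Q s (res.d 0 a c)) = 0
      rw [map_sum]
      refine Finset.sum_eq_zero fun a _ => ?_
      rw [map_mul, aug_emb, aug_eq_zero_of_degOne (res.linear 0 a c), mul_zero]
    rw [h1, zero_add, map_sum]
    refine Finset.sum_eq_zero fun j _ => ?_
    rw [map_mul, aug_y, mul_zero]

theorem exact_second (res : LinearResolution Q) (v : res.ι 1 ⊕ (Fin s × res.ι 0) → (ext Q s).Alg) :
    v ᵥ* d0 res s = 0 ↔ ∃ w, w ᵥ* d1 res s 0 = v := by
  have hs : Subsingleton (res.ι 0) := Fintype.card_le_one_iff_subsingleton.1 res.card_zero.le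
  have key : ∀ (j : Fin s) (w : res.ι 0 → Q.Alg), (∀ a, Q.aug (w a) = 0) ↔ ∃ u, u ᵥ* res.d 0 = w :=
    fun _ => res.exact_zero
  rw [exists_d1]
  constructor
  · intro h
    have h1 : ∀ (c : res.ι 0) (j : Fin s) (w : List (Fin s)),
        Q.aug (psi Q s (v (Sum.inr (j, c))) w) = 0 := by
      intro c j w
      have h2 := congrArg (fun f => Q.aug (psi Q s (f c) (w ++ [j]))) h
      simp only [d0_apply, map_add, Finsupp.add_apply, vecMul_map_apply] at h2
      rw [map_sum, Finsupp.finsetSum_apply, map_sum] at h2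
      rw [Pi.zero_apply, map_zero, Finsupp.zero_apply, map_zero] at h2
      have h3 : Q.aug (((fun a => psi Q s (v (Sum.inl a)) (w ++ [j])) ᵥ* res.d 0) c) = 0 := by
        change Q.aug (∑ a, psi Q s (v (Sum.inl a)) (w ++ [j]) * res.d 0 a c) = 0
        rw [map_sum]
        refine Finset.sum_eq_zero fun a _ => ?_
        rw [map_mul, aug_eq_zero_of_degOne (res.linear 0 a c), mul_zero]
      rw [h3, zero_add, Finset.sum_eq_single j] at h2
      · rw [psi_mul_y, T_apply, if_pos rfl, AlgHom.commutes] at h2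
        exact h2
      · intro i _ hi
        rw [psi_mul_y, T_apply, if_neg hi, map_zero]
      · intro h; exact absurd (Finset.mem_univ _) h
    have h4 : ∀ j : Fin s, ∃ w, w ᵥ* (res.d 0).map (emb Q s) = fun a => v (Sum.inr (j, a)) :=
      fun j => (lift_exact Q s (res.d 0) (fun w => ∀ a, Q.aug (w a) = 0) res.exact_zero
        (fun a => v (Sum.inr (j, a)))).1 fun w a => h1 a j w
    refine ⟨?_, h4⟩
    refine (lift_exact' Q s (res.d 1) (res.d 0) (res.exact 0) _).1 ?_
    funext c
    have h5 := congrFun h c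
    rw [d0_apply] at h5
    have h6 : ∑ j : Fin s, v (Sum.inr (j, c)) * y Q s j = 0 := by
      refine Finset.sum_eq_zero fun j _ => ?_
      obtain ⟨w, hw⟩ := h4 j
      rw [← congrFun hw c]
      change (∑ a, w a * emb Q s (res.d 0 a c)) * y Q s j = 0
      rw [Finset.sum_mul]
      refine Finset.sum_eq_zero fun a _ => ?_
      rw [mul_assoc, emb_mul_y, aug_eq_zero_of_degOne (res.linear 0 a c), zero_smul, mul_zero]
    rw [h6, add_zero] at h5
    exact h5
  · rintro ⟨h1, h2⟩
    funext c
    rw [d0_apply, (lift_exact' Q s (res.d 1) (res.d 0) (res.exact 0) _).2 h1]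
    change 0 + _ = (0 : (ext Q s).Alg)
    rw [zero_add]
    refine Finset.sum_eq_zero fun j _ => ?_
    obtain ⟨w, hw⟩ := h2 j
    rw [← congrFun hw c]
    change (∑ a, w a * emb Q s (res.d 0 a c)) * y Q s j = 0
    rw [Finset.sum_mul]
    refine Finset.sum_eq_zero fun a _ => ?_
    rw [mul_assoc, emb_mul_y, aug_eq_zero_of_degOne (res.linear 0 a c), zero_smul, mul_zero]

theorem exact_third (res : LinearResolution Q) (n : ℕ)
    (v : res.ι (n + 2) ⊕ (Fin s × res.ι (n + 1)) → (ext Q s).Alg) :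
    v ᵥ* d1 res s n = 0 ↔ ∃ w, w ᵥ* d1 res s (n + 1) = v := by
  rw [d1_eq_zero, exists_d1]
  refine and_congr (lift_exact' Q s _ _ (res.exact (n + 1)) _) (forall_congr' fun j => ?_)
  exact lift_exact' Q s _ _ (res.exact n) _

/-- The linear resolution over the extended algebra. -/
noncomputable def extRes (res : LinearResolution Q) (s : ℕ) : LinearResolution (ext Q s) where
  ι := idx res s
  fin := idxFin res s
  d := fun n => match n with
    | 0 => d0 res s
    | n + 1 => d1 res s n
  linear := fun n => match n with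
    | 0 => fun a b => match a with
      | Sum.inl a => emb_mem s (res.linear 0 a b)
      | Sum.inr p => (ext Q s).gen_mem _
    | n + 1 => fun a b => match a, b with
      | Sum.inl a, Sum.inl b => emb_mem s (res.linear (n + 1) a b)
      | Sum.inr p, Sum.inr q => by
        change (if p.1 = q.1 then emb Q s (res.d n p.2 q.2) else 0) ∈ _
        split_ifs
        · exact emb_mem s (res.linear n _ _)
        · exact Submodule.zero_mem _
      | Sum.inl _, Sum.inr _ => Submodule.zero_mem _
      | Sum.inr _, Sum.inl _ => Submodule.zero_mem _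
  card_zero := res.card_zero
  exact_zero := exact_first s res
  exact := fun n => match n with
    | 0 => exact_second s res
    | n + 1 => exact_third s res n

theorem betti_zero (hQ : Q.IsKoszul) : Q.betti 0 = 1 := by
  obtain ⟨res⟩ := hQ
  rw [betti_eq res, res.card_zero]

/-- The extended algebra is Koszul. -/
theorem ext_koszul (hQ : Q.IsKoszul) (s : ℕ) : (ext Q s).IsKoszul := by
  obtain ⟨res⟩ := hQ
  exact ⟨extRes res s⟩

/-- The Betti numbers of the extended algebra. -/
theorem ext_betti (hQ : Q.IsKoszul) (s n : ℕ) :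
    (ext Q s).betti (n + 1) = Q.betti (n + 1) + s * Q.betti n := by
  obtain ⟨res⟩ := hQ
  rw [betti_eq (extRes res s), betti_eq res, betti_eq res]
  change Fintype.card (res.ι (n + 1) ⊕ (Fin s × res.ι n)) = _
  rw [Fintype.card_sum, Fintype.card_prod, Fintype.card_fin]

end Pool.Agent.Y443.KZ
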